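import Pool.Agent.Helper45_PGE.Defs

/-!
MP_5b1cbc_ag, squad PGE, module QUA: `s ^ 2 = Q(v)` with `deg Q ≤ 4`.
-/

set_option autoImplicit false

open Polynomial

universe u

namespace Pool.Agent.PGE.H65

open Pool.Agent.PGE

section

variable {k L : Type u} [Field k] [Field L] [Algebra k L]

theorem adj_top {v s : L} (h : IntermediateField.adjoin k {v, s} = ⊤)
    (F : IntermediateField k L) (hv : v ∈ F) (hs : s ∈ F) : F = ⊤ := by
  rw [← top_le_iff, ← h, IntermediateField.adjoin_le_iff]
  rintro x (rfl | hx)
  · exact hv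
  · rw [Set.mem_singleton_iff] at hx
    rw [hx]
    exact hs

theorem transc_of_mem {v u : L} (hv : Transcendental k v)
    (h : v ∈ IntermediateField.adjoin k {u}) : Transcendental k u := by
  intro hu
  have h1 : Algebra.IsAlgebraic k (IntermediateField.adjoin k {u}) :=
    IntermediateField.isAlgebraic_adjoin_simple hu.isIntegral
  have h2 := h1.isAlgebraic (⟨v, h⟩ : IntermediateField.adjoin k {u})
  have h3 := h2.algebraMap (A := L)
  exact hv h3

theorem mem_const (F : IntermediateField k L) (a : k) : algebraMap k L a ∈ F :=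
  F.algebraMap_mem a

theorem sq_const [IsAlgClosed k] {u : L} {c : k} (h : u ^ 2 = algebraMap k L c) :
    ∃ a : k, u = algebraMap k L a := by
  obtain ⟨a, ha⟩ := IsAlgClosed.exists_pow_nat_eq c (n := 2) (by norm_num)
  have h1 : (u - algebraMap k L a) * (u + algebraMap k L a) = 0 := by
    have h2 : algebraMap k L a ^ 2 = algebraMap k L c := by rw [← map_pow, ha]
    linear_combination h - h2
  rcases mul_eq_zero.1 h1 with h2 | h2
  · exact ⟨a, sub_eq_zero.1 h2⟩
  · refine ⟨-a, ?_⟩
    rw [map_neg]
    exact eq_neg_of_add_eq_zero_left h2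

theorem ne_const {v : L} (hv : Transcendental k v) (r : k) : v - algebraMap k L r ≠ 0 := by
  intro h
  refine hv ?_
  rw [sub_eq_zero.1 h]
  exact isAlgebraic_algebraMap r

end

theorem qua3 (hrat : RATStmt.{u}) (hell : ELLStmt.{u}) (k L : Type u) [Field k] [IsAlgClosed k]
    [CharZero k] [Field L] [Algebra k L] (v s : L) (c₀ c₁ c₂ c₃ : k) (hv : Transcendental k v)
    (hs : s ^ 2 = algebraMap k L c₃ * v ^ 3 + algebraMap k L c₂ * v ^ 2 +
      algebraMap k L c₁ * v + algebraMap k L c₀)
    (hadj : IntermediateField.adjoin k {v, s} = ⊤) : Good k L := by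
  have hvm : ∀ x : L, x ∈ IntermediateField.adjoin k {x} := fun x =>
    IntermediateField.mem_adjoin_simple_self k x
  by_cases h3 : c₃ = 0
  swap
  · -- cubic
    have h3' : algebraMap k L c₃ ≠ 0 := (_root_.map_ne_zero _).2 h3
    set v' : L := algebraMap k L c₃ * v + algebraMap k L (c₂ / 3) with hv'
    set s' : L := algebraMap k L c₃ * s with hs'
    have hveq : v = (v' - algebraMap k L (c₂ / 3)) / algebraMap k L c₃ := by
      rw [hv']
      field_simp
      ring
    have hvmem : v ∈ IntermediateField.adjoin k {v'} := by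
      rw [hveq]
      exact div_mem (sub_mem (hvm v') (mem_const _ _)) (mem_const _ _)
    have hv't : Transcendental k v' := transc_of_mem hv hvmem
    refine hell k L v' s' (c₃ * c₁ - c₂ ^ 2 / 3)
      (c₃ ^ 2 * c₀ - c₂ ^ 3 / 27 - (c₃ * c₁ - c₂ ^ 2 / 3) * (c₂ / 3)) hv't ?_ ?_
    · rw [hs', hv', mul_pow, hs]
      have e3 : algebraMap k L (c₂ / 3) = algebraMap k L c₂ / 3 := by
        rw [map_div₀, map_ofNat]
      have e4 : algebraMap k L (c₃ * c₁ - c₂ ^ 2 / 3) =
          algebraMap k L c₃ * algebraMap k L c₁ - algebraMap k L c₂ ^ 2 / 3 := by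
        rw [map_sub, map_mul, map_div₀, map_pow, map_ofNat]
      have e5 : algebraMap k L (c₃ ^ 2 * c₀ - c₂ ^ 3 / 27 - (c₃ * c₁ - c₂ ^ 2 / 3) * (c₂ / 3)) =
          algebraMap k L c₃ ^ 2 * algebraMap k L c₀ - algebraMap k L c₂ ^ 3 / 27 -
          (algebraMap k L c₃ * algebraMap k L c₁ - algebraMap k L c₂ ^ 2 / 3) *
            (algebraMap k L c₂ / 3) := by
        rw [map_sub, map_sub, map_mul, map_mul, e4, e3, map_pow, map_div₀, map_pow, map_ofNat]
      rw [e3, e4, e5]
      haveI : CharZero L := charZero_of_injective_algebraMap (algebraMap k L).injective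
      ring
    · refine adj_top hadj _ ?_ ?_
      · rw [hveq]
        refine div_mem (sub_mem ?_ (mem_const _ _)) (mem_const _ _)
        exact IntermediateField.subset_adjoin k _ (Set.mem_insert _ _)
      · have : s = s' / algebraMap k L c₃ := by
          rw [hs']
          field_simp
        rw [this]
        refine div_mem ?_ (mem_const _ _)
        exact IntermediateField.subset_adjoin k _ (Set.mem_insert_of_mem _ rfl)
  subst h3
  rw [map_zero, zero_mul, zero_add] at hs
  by_cases h2 : c₂ = 0
  swap
  · -- conic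
    have h2' : algebraMap k L c₂ ≠ 0 := (_root_.map_ne_zero _).2 h2
    obtain ⟨r, hr⟩ : ∃ r : k, c₂ * r ^ 2 + c₁ * r + c₀ = 0 := by
      have hdeg : (C c₂ * X ^ 2 + C c₁ * X + C c₀).degree ≠ 0 := by
        rw [degree_quadratic h2]
        norm_num
      obtain ⟨r, hr⟩ := IsAlgClosed.exists_root _ hdeg
      refine ⟨r, ?_⟩
      have h := hr
      simp only [IsRoot.def, eval_add, eval_mul, eval_C, eval_pow, eval_X] at h
      exact h
    set r' : k := -c₁ / c₂ - r with hr'
    have hvr := ne_const hv r
    have hfac : s ^ 2 = algebraMap k L c₂ * (v - algebraMap k L r) * (v - algebraMap k L r') := by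
      have e1 : algebraMap k L r' = -algebraMap k L c₁ / algebraMap k L c₂ - algebraMap k L r := by
        rw [hr', map_sub, map_div₀, map_neg]
      have e2 : algebraMap k L c₂ * algebraMap k L r ^ 2 + algebraMap k L c₁ * algebraMap k L r +
          algebraMap k L c₀ = 0 := by
        rw [← map_pow, ← map_mul, ← map_mul, ← map_add, ← map_add, hr, map_zero]
      rw [hs, e1]
      field_simp
      linear_combination e2
    set w : L := s / (v - algebraMap k L r) with hw
    have hsw : s = w * (v - algebraMap k L r) := by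
      rw [hw]
      field_simp
    have hw2 : w ^ 2 * (v - algebraMap k L r) = algebraMap k L c₂ * (v - algebraMap k L r') := by
      have h : (w ^ 2 * (v - algebraMap k L r)) * (v - algebraMap k L r) =
          (algebraMap k L c₂ * (v - algebraMap k L r')) * (v - algebraMap k L r) := by
        have : s ^ 2 = w ^ 2 * (v - algebraMap k L r) ^ 2 := by
          rw [hsw]
          ring
        linear_combination hfac - this
      exact mul_right_cancel₀ hvr h
    by_cases hw0 : w ^ 2 = algebraMap k L c₂
    · obtain ⟨a, ha⟩ := sq_const hw0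
      refine hrat k L v hv (adj_top hadj _ (hvm v) ?_)
      rw [hsw, ha]
      exact mul_mem (mem_const _ _) (sub_mem (hvm v) (mem_const _ _))
    · have hne : w ^ 2 - algebraMap k L c₂ ≠ 0 := sub_ne_zero.2 hw0
      have hveq : v = (w ^ 2 * algebraMap k L r - algebraMap k L c₂ * algebraMap k L r') /
          (w ^ 2 - algebraMap k L c₂) := by
        rw [eq_div_iff hne]
        linear_combination hw2
      have hvw : v ∈ IntermediateField.adjoin k {w} := by
        rw [hveq]
        exact div_mem (sub_mem (mul_mem (pow_mem (hvm w) 2) (mem_const _ _))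
          (mul_mem (mem_const _ _) (mem_const _ _))) (sub_mem (pow_mem (hvm w) 2) (mem_const _ _))
      refine hrat k L w (transc_of_mem hv hvw) (adj_top hadj _ hvw ?_)
      rw [hsw]
      exact mul_mem (hvm w) (sub_mem hvw (mem_const _ _))
  subst h2
  rw [map_zero, zero_mul, zero_add] at hs
  by_cases h1 : c₁ = 0
  swap
  · have h1' : algebraMap k L c₁ ≠ 0 := (_root_.map_ne_zero _).2 h1
    have hveq : v = (s ^ 2 - algebraMap k L c₀) / algebraMap k L c₁ := by
      rw [eq_div_iff h1']
      linear_combination -hs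
    have hvs : v ∈ IntermediateField.adjoin k {s} := by
      rw [hveq]
      exact div_mem (sub_mem (pow_mem (hvm s) 2) (mem_const _ _)) (mem_const _ _)
    exact hrat k L s (transc_of_mem hv hvs) (adj_top hadj _ hvs (hvm s))
  subst h1
  rw [map_zero, zero_mul, zero_add] at hs
  obtain ⟨a, ha⟩ := sq_const hs
  refine hrat k L v hv (adj_top hadj _ (hvm v) ?_)
  rw [ha]
  exact mem_const _ _

theorem qua (hrat : RATStmt.{u}) (hell : ELLStmt.{u}) : QUAStmt.{u} := by
  intro k L _ _ _ _ _ v s Q hv hs hQ hdeg hadj
  by_cases h4 : Q.coeff 4 = 0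
  · refine qua3 hrat hell k L v s (Q.coeff 0) (Q.coeff 1) (Q.coeff 2) (Q.coeff 3) hv ?_ hadj
    rw [hs, aeval_eq_sum_range' (show Q.natDegree < 5 by omega)]
    simp only [Finset.sum_range_succ, Finset.sum_range_zero, zero_add, Algebra.smul_def, h4,
      map_zero, zero_mul, add_zero, pow_zero, mul_one, pow_one]
    ring
  · have hd : Q.degree ≠ 0 := by
      have h5 : Q.natDegree = 4 := le_antisymm hdeg (le_natDegree_of_ne_zero h4)
      rw [degree_eq_natDegree hQ, h5]
      norm_num
    obtain ⟨r, hr⟩ := IsAlgClosed.exists_root Q hd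
    have hvr := ne_const hv r
    set q := taylor r Q with hq
    have hq0 : q.coeff 0 = 0 := by
      rw [hq, taylor_coeff_zero]
      exact hr
    have hqd : q.natDegree < 5 := by
      rw [hq, natDegree_taylor]
      omega
    set w : L := (v - algebraMap k L r)⁻¹ with hw
    have hw0 : w ≠ 0 := inv_ne_zero hvr
    have hveq : v = w⁻¹ + algebraMap k L r := by
      rw [hw, inv_inv]
      ring
    have hQv : aeval v Q = aeval (w⁻¹) q := by
      rw [hq, taylor_apply, aeval_comp, map_add, aeval_X, aeval_C, ← hveq]
    have hwm : ∀ x : L, x ∈ IntermediateField.adjoin k {x} := fun x =>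
      IntermediateField.mem_adjoin_simple_self k x
    have hvw : v ∈ IntermediateField.adjoin k {w} := by
      rw [hveq]
      exact add_mem (inv_mem (hwm w)) (mem_const _ _)
    refine qua3 hrat hell k L w (s * w ^ 2) (q.coeff 4) (q.coeff 3) (q.coeff 2) (q.coeff 1)
      (transc_of_mem hv hvw) ?_ ?_
    · rw [mul_pow, hs, hQv, aeval_eq_sum_range' hqd]
      simp only [Finset.sum_range_succ, Finset.sum_range_zero, zero_add, Algebra.smul_def, hq0,
        map_zero, zero_mul, pow_zero, pow_one]
      field_simp
    · refine adj_top hadj _ ?_ ?_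
      · rw [hveq]
        exact add_mem (inv_mem (IntermediateField.subset_adjoin k _ (Set.mem_insert _ _)))
          (mem_const _ _)
      · have h6 : s = (s * w ^ 2) * (w⁻¹) ^ 2 := by
          field_simp
        have h7 : s * w ^ 2 ∈ IntermediateField.adjoin k {w, s * w ^ 2} :=
          IntermediateField.subset_adjoin k _ (Set.mem_insert_of_mem _ rfl)
        have h8 : w ∈ IntermediateField.adjoin k {w, s * w ^ 2} :=
          IntermediateField.subset_adjoin k _ (Set.mem_insert _ _)
        have h9 := mul_mem h7 (pow_mem (inv_mem h8) 2)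
        rw [← h6] at h9
        exact h9

end Pool.Agent.PGE.H65
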